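import Pool.Agent.helper47.SC.Spec

/-!
# Row PPN: pluripolar sets are null sets
-/

open scoped Topology ContDiff
open Set Filter Metric MeasureTheory

namespace Pool.Agent.SC

/-- Row PPN. -/
theorem PPN (h1 : PCO_stmt) : PPN_stmt := by
  intro A hA
  refine measure_null_of_locally_null A ?_
  intro z _
  obtain ⟨V, u, hV, hVc, hzV, hu, hw, hAV⟩ := hA z
  refine ⟨A ∩ V, ?_, ?_⟩
  · exact inter_mem_nhdsWithin A (hV.mem_nhds hzV)
  · refine measure_mono_null ?_ (h1 V u hV hVc hu hw)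
    rintro w ⟨hwA, hwV⟩
    exact ⟨hwV, hAV w hwA hwV⟩

end Pool.Agent.SC
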