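import Pool.Agent.helper82.SC.SpecA

namespace Pool.Agent.helper82.SC

open Relation

theorem CO_fin (D : Dom) : {f | D.FU f}.Finite := by
  have h1 : {f | D.FU f} ⊆ ⋃ d : Fin 3, ⋃ b : Bool, {f : F | f.2 = b ∧ S f d ∈ D.U} := by
    rintro f ⟨d, hd⟩
    exact Set.mem_iUnion.mpr ⟨d, Set.mem_iUnion.mpr ⟨f.2, rfl, hd⟩⟩
  refine Set.Finite.subset (Set.finite_iUnion fun d => Set.finite_iUnion fun b => ?_) h1
  have h2 : {f : F | f.2 = b ∧ S f d ∈ D.U} =
      (fun f : F => (f.2, S f d)) ⁻¹' (({b} : Set Bool) ×ˢ (D.U : Set V)) := by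
    ext f
    simp
  rw [h2]
  refine Set.Finite.preimage ?_ ((Set.finite_singleton b).prod D.U.finite_toSet)
  rintro ⟨⟨i, j⟩, b1⟩ _ ⟨⟨k, l⟩, b2⟩ _ h
  fin_cases d <;> cases b1 <;> cases b2 <;> simp_all [S]

theorem CO_three : ∀ c e : Fin 3, c = e ∨ c = e + 1 ∨ c = e + 2 := by decide

theorem CO : CO_stmt := by
  intro D
  have hthree : ∀ m : Fin 3, m + 1 ≠ m + 2 := by decide
  refine ⟨CO_fin D, ?_, ?_, ?_⟩
  · intro m
    refine ⟨⟨_, D.third m⟩, ?_, ?_, ?_⟩
    · rintro ⟨c, hc⟩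
      have h0 : S (tw (D.a m).1 (D.a m).2) (D.a m).2 ∉ D.U := by
        rw [S_tw]; exact D.second m
      have h1 : S (tw (D.a m).1 (D.a m).2) ((D.a m).2 + 1) ∉ D.U := by
        rw [S_tw']; exact D.first m
      have hne : D.sec (S (D.a m).1 (D.a m).2) ≠ D.sec (S (D.a m).1 ((D.a m).2 + 1)) := by
        rw [D.sec_first, D.sec_second]; exact hthree m
      have h2 : S (tw (D.a m).1 (D.a m).2) ((D.a m).2 + 2) ∉ D.U :=
        D.outer _ _ (D.third m) (D.first m) (D.second m)
      have hc' := CO_three c (D.a m).2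
      rcases hc' with rfl | rfl | rfl
      · exact h0 hc
      · exact h1 hc
      · exact h2 hc
    · unfold Dom.wall
      rw [D.sec_first, D.sec_second, if_neg (hthree m)]
    · unfold Dom.wall
      have e1 : S (star (D.a m)).1 (star (D.a m)).2 = S (D.a m).1 ((D.a m).2 + 1) := S_tw _ _
      have e2 : S (star (D.a m)).1 ((star (D.a m)).2 + 1) = S (D.a m).1 (D.a m).2 := S_tw' _ _
      rw [e1, e2, D.sec_first, D.sec_second, if_neg (hthree m).symm]
  · intro x hx hsx hw
    have e1 : S x.1 x.2 = S (star x).1 ((star x).2 + 1) := (S_tw' x.1 x.2).symm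
    have e2 : S x.1 (x.2 + 1) = S (star x).1 (star x).2 := (S_tw x.1 x.2).symm
    have n1 : S (star x).1 ((star x).2 + 1) ∉ D.U := by
      rw [← e1]; exact fun h => hx ⟨_, h⟩
    have n2 : S (star x).1 (star x).2 ∉ D.U := by
      rw [← e2]; exact fun h => hx ⟨_, h⟩
    have n3 : S (star x).1 ((star x).2 + 2) ∈ D.U := by
      obtain ⟨c, hc⟩ := hsx
      have hc' := CO_three c (star x).2
      rcases hc' with rfl | rfl | rfl
      · exact absurd hc n2
      · exact absurd hc n1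
      · exact hc
    have hne : D.sec (S (star x).1 (star x).2) ≠ D.sec (S (star x).1 ((star x).2 + 1)) := by
      intro h
      unfold Dom.wall at hw
      rw [e1, e2, if_pos h.symm] at hw
      exact absurd hw (by decide)
    obtain ⟨m, hm⟩ := D.only (star x).1 (star x).2 n3 n2 n1 hne
    exact ⟨m, by rw [← hm, star_star]⟩
  · intro m m' h
    have h1 := D.sec_first m
    rw [h, D.sec_first m'] at h1
    exact (add_right_cancel h1).symm

end Pool.Agent.helper82.SC
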