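import Pool.Agent.helper83.SC.Stmt

/-!
# Module LI: the mixed area measure in a chart
-/

open scoped Pointwise ContDiff
open MeasureTheory Set Filter Topology

namespace Pool.Agent.helper83.SC

/-- sums over the subsets of `Fin (m + 1)` -/
theorem LI_sum_split {m : ℕ} (g : Finset (Fin (m + 1)) → ℝ) :
    ∑ I : Finset (Fin (m + 1)), g I = ∑ J : Finset (Fin m), g (J.image Fin.succ) +
      ∑ J : Finset (Fin m), g (insert 0 (J.image Fin.succ)) := by
  classical
  have hinj : Function.Injective (Fin.succ : Fin m → Fin (m + 1)) := Fin.succ_injective m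
  have h0 : (0 : Fin (m + 1)) ∉ (Finset.univ : Finset (Fin m)).image Fin.succ := by
    simp [Finset.mem_image]
  have huniv : (Finset.univ : Finset (Fin (m + 1))) =
      insert 0 ((Finset.univ : Finset (Fin m)).image Fin.succ) := by
    ext i
    simp only [Finset.mem_univ, Finset.mem_insert, Finset.mem_image, true_and, true_iff]
    rcases Fin.eq_zero_or_eq_succ i with h | ⟨j, h⟩
    · exact Or.inl h
    · exact Or.inr ⟨j, h.symm⟩
  rw [← Finset.powerset_univ, huniv, Finset.sum_powerset_insert h0, Finset.powerset_image,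
    Finset.sum_image, Finset.sum_image, Finset.powerset_univ]
  · intro a _ b _ h
    exact Finset.image_injective hinj h
  · intro a _ b _ h
    exact Finset.image_injective hinj h

theorem LI_zero_notMem {m : ℕ} (J : Finset (Fin m)) :
    (0 : Fin (m + 1)) ∉ J.image Fin.succ := by
  classical
  simp [Finset.mem_image]

theorem LI_sum_succ {m : ℕ} {X : Type} [AddCommMonoid X] (a : X) (C : Fin m → X)
    (J : Finset (Fin m)) :
    ∑ i ∈ J.image Fin.succ, (Fin.cons a C : Fin (m + 1) → X) i = ∑ j ∈ J, C j := by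
  classical
  rw [Finset.sum_image]
  · simp
  · intro x _ y _ h
    exact Fin.succ_injective m h

theorem LI_sum_insert {m : ℕ} {X : Type} [AddCommMonoid X] (a : X) (C : Fin m → X)
    (J : Finset (Fin m)) :
    ∑ i ∈ insert 0 (J.image Fin.succ), (Fin.cons a C : Fin (m + 1) → X) i =
      a + ∑ j ∈ J, C j := by
  classical
  rw [Finset.sum_insert (LI_zero_notMem J), LI_sum_succ, Fin.cons_zero]

theorem LI_card_insert {m : ℕ} (J : Finset (Fin m)) :
    (insert (0 : Fin (m + 1)) (J.image Fin.succ)).card = J.card + 1 := by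
  classical
  rw [Finset.card_insert_of_notMem (LI_zero_notMem J),
    Finset.card_image_of_injective _ (Fin.succ_injective m)]

/-- the difference of two mixed volumes -/
theorem LI_mixedVol {m : ℕ} (N N' : Set (E (m + 1))) (C : Fin m → Set (E (m + 1))) :
    mixedVol (Fin.cons N' C : Fin (m + 1) → Set (E (m + 1))) -
      mixedVol (Fin.cons N C : Fin (m + 1) → Set (E (m + 1))) =
    (1 / ((m + 1).factorial : ℝ)) * ∑ J : Finset (Fin m), (-1 : ℝ) ^ (m - J.card) *
      (vol (N' + ∑ j ∈ J, C j) - vol (N + ∑ j ∈ J, C j)) := by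
  classical
  unfold mixedVol
  rw [LI_sum_split, LI_sum_split, ← mul_sub]
  congr 1
  simp only [LI_sum_succ, LI_sum_insert, LI_card_insert]
  rw [add_sub_add_left_eq_sub, ← Finset.sum_sub_distrib]
  apply Finset.sum_congr rfl
  intro J _
  rw [show m + 1 - (J.card + 1) = m - J.card by omega]
  ring

theorem LI_integrable {m : ℕ} {S : Measure (E m)} (hS1 : IsFiniteMeasure S)
    (hS2 : S (Metric.sphere (0 : E m) 1)ᶜ = 0) {f : E m → ℝ} (hf : Continuous f) :
    Integrable f S := by
  have h1 : IntegrableOn f (Metric.sphere (0 : E m) 1) S :=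
    hf.continuousOn.integrableOn_compact (isCompact_sphere 0 1)
  have h2 : S.restrict (Metric.sphere (0 : E m) 1) = S :=
    Measure.restrict_eq_self_of_ae_mem (by
      rw [ae_iff]
      exact hS2)
  rw [IntegrableOn, h2] at h1
  exact h1

theorem LI_tilde_one {m : ℕ} (φ : E m → ℝ) (y : E m) : tilde φ y 1 = φ y := by
  unfold tilde
  rw [if_pos one_pos, inv_one, one_smul, one_mul]

theorem LI_CV_mix {m : ℕ} {f φ : E m → ℝ} (hf : CV f) (hf' : CV (fun x => f x + φ x)) {s : ℝ}
    (h0 : 0 ≤ s) (h1 : s ≤ 1) : CV (fun x => f x + s * φ x) := by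
  have h : (fun x => f x + s * φ x) = (1 - s) • f + s • (fun x => f x + φ x) := by
    funext x
    simp only [Pi.add_apply, Pi.smul_apply, smul_eq_mul]
    ring
  unfold CV
  rw [h]
  exact (hf.smul (by linarith)).add (hf'.smul h0)

theorem local_identity_of (hBshift : B_shift_stmt) (hJF : integral_conj_sub_stmt)
    (hJI : A_interval_stmt) (hBadd : Body_add_stmt) (hHadd : H_add_stmt) (hFCV : F_CV_stmt)
    (hvol : volume_sub_stmt) (hTB : exists_test_body_stmt) (hcoord : coord_facts_stmt)
    (hhE : hE_facts_stmt) (hsum : isBody_sum_stmt) (hchart : chart_CV_stmt) :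
    local_identity_stmt := by
  intro m hm b C hC S hS φ hφ
  obtain ⟨M, M', hM, hM', hH⟩ := hTB hφ
  obtain ⟨c1, c2, c3, c4, c5, c6, c7⟩ := hcoord b
  set N : Set (E (m + 1)) := coord b ⁻¹' M with hNdef
  set N' : Set (E (m + 1)) := coord b ⁻¹' M' with hN'def
  have hN : IsBody N := c2 M hM
  have hN' : IsBody N' := c2 M' hM'
  have hlift : ∀ v, lift b φ v = hE N' v - hE N v := by
    intro v
    rw [c6 _ hN' v, c6 _ hN v, c3 M', c3 M, hH]
    unfold lift
    ring
  have hcont : ∀ {X : Set (E (m + 1))}, IsBody X → Continuous (hE X) := by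
    intro X hX
    obtain ⟨D, hD⟩ := (hhE hX hX).1
    exact hD.continuous
  have hm1 : (0 : ℝ) < (m : ℝ) + 1 := by positivity
  have hint : ∫ v, lift b φ v ∂S =
      ((m : ℝ) + 1) * (mixedVol (Fin.cons N' C : Fin (m + 1) → Set (E (m + 1))) -
        mixedVol (Fin.cons N C : Fin (m + 1) → Set (E (m + 1)))) := by
    simp only [hlift]
    rw [integral_sub (LI_integrable hS.1 hS.2.1 (hcont hN'))
      (LI_integrable hS.1 hS.2.1 (hcont hN)), hS.2.2 _ hN', hS.2.2 _ hN]
    field_simp
  -- the sums
  set K : Finset (Fin m) → Set (E m × ℝ) := fun J => coord b '' (∑ j ∈ J, C j) with hKdef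
  set f : Fin m → E m → ℝ := fun j => chart b (C j) with hfdef
  have hCJ : ∀ J : Finset (Fin m), IsBody (∑ j ∈ J, C j) := fun J => (hsum J hC).1
  have hK : ∀ J, Body (K J) := fun J => c1 _ (hCJ J)
  have hFK : ∀ J, F (K J) = fun x => ∑ j ∈ J, f j x := by
    intro J
    rw [hKdef]
    simp only []
    rw [c7 _ (hCJ J)]
    funext x
    exact (hsum J hC).2 _
  have hCVsum : ∀ J : Finset (Fin m), CV (fun x => ∑ j ∈ J, f j x) := by
    intro J
    rw [← hFK J]
    exact hFCV (hK J)
  have hCVM : CV (F M) := hFCV hM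
  have hFM' : F M' = fun x => F M x + φ x := by
    funext x
    unfold F
    rw [hH x 1, LI_tilde_one]
  have hCVM' : CV (fun x => F M x + φ x) := by
    rw [← hFM']
    exact hFCV hM'
  -- one difference of volumes
  have hdiff : ∀ J : Finset (Fin m), vol (N' + ∑ j ∈ J, C j) - vol (N + ∑ j ∈ J, C j) =
      ∫ s in (0 : ℝ)..1, A φ (fun x => (F M x + s * φ x) + ∑ j ∈ J, f j x) := by
    intro J
    have hb1 : IsBody (N' + ∑ j ∈ J, C j) := (hhE hN' (hCJ J)).2.2.2.2
    have hb2 : IsBody (N + ∑ j ∈ J, C j) := (hhE hN (hCJ J)).2.2.2.2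
    have e1 : vol (N' + ∑ j ∈ J, C j) = (volume (M' + K J)).toReal := by
      rw [c5 _ hb1, c4, c3]
    have e2 : vol (N + ∑ j ∈ J, C j) = (volume (M + K J)).toReal := by
      rw [c5 _ hb2, c4, c3]
    have hF1 : F (M + K J) = fun x => F M x + ∑ j ∈ J, f j x := by
      funext x
      have h1 := hHadd hM (hK J) x 1
      have h2 := congrFun (hFK J) x
      unfold F at h2 ⊢
      rw [h1, h2]
    have hF2 : F (M' + K J) = fun x => F (M + K J) x + φ x := by
      funext x
      have h1 := hHadd hM' (hK J) x 1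
      have h2 := hHadd hM (hK J) x 1
      unfold F
      rw [h1, h2, hH x 1, LI_tilde_one]
      ring
    have hCV1 : CV (F (M + K J)) := hFCV (hBadd hM (hK J))
    have hCV2 : CV (fun x => F (M + K J) x + φ x) := by
      rw [← hF2]
      exact hFCV (hBadd hM' (hK J))
    rw [e1, e2, hvol (hBadd hM (hK J)) (hBadd hM' (hK J)) hφ]
    · rw [hF2, hJF hφ hCV1 hCV2]
      congr 1
      funext s
      congr 1
      funext x
      rw [hF1]
      ring
    · intro y s
      rw [hHadd hM' (hK J), hHadd hM (hK J), hH]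
      ring
  -- the sum of the differences
  have hsumJ : ∑ J : Finset (Fin m), (-1 : ℝ) ^ (m - J.card) *
      (vol (N' + ∑ j ∈ J, C j) - vol (N + ∑ j ∈ J, C j)) = (m.factorial : ℝ) * B φ f := by
    simp only [hdiff]
    have hii : ∀ J ∈ (Finset.univ : Finset (Finset (Fin m))), IntervalIntegrable
        (fun s => (-1 : ℝ) ^ (m - J.card) *
          A φ (fun x => (F M x + s * φ x) + ∑ j ∈ J, f j x)) volume 0 1 := by
      intro J _
      exact (hJI hφ hCVM hCVM' (hCVsum J)).const_mul _
    rw [Finset.sum_congr rfl (fun J _ => (intervalIntegral.integral_const_mul _ _).symm),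
      ← intervalIntegral.integral_finsetSum hii]
    have hconst : ∀ s ∈ Set.uIcc (0 : ℝ) 1, ∑ J : Finset (Fin m), (-1 : ℝ) ^ (m - J.card) *
        A φ (fun x => (F M x + s * φ x) + ∑ j ∈ J, f j x) = (m.factorial : ℝ) * B φ f := by
      intro s hs
      rw [Set.uIcc_of_le zero_le_one] at hs
      exact hBshift hφ (fun j => hchart b (hC j)) (LI_CV_mix hCVM hCVM' hs.1 hs.2)
    rw [intervalIntegral.integral_congr hconst, intervalIntegral.integral_const]
    simp
  rw [hint, LI_mixedVol, hsumJ, Nat.factorial_succ]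
  have hfac : (m.factorial : ℝ) ≠ 0 := by exact_mod_cast m.factorial_ne_zero
  push_cast
  field_simp

end Pool.Agent.helper83.SC
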