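import Pool.Agent.helper82.SC.SpecA

namespace Pool.Agent.helper82.SC

open Relation

theorem MV_add_self (x : ZMod 2) : x + x = 0 := CharTwo.add_self_eq_zero x

theorem MV_mv_mv (f : F) (d e : Fin 3) (ψ : Dart → ZMod 2) : mv f d e (mv f e d ψ) = ψ := by
  funext x
  simp only [mv]
  have h1 := MV_add_self (if x = (f, d) then (1 : ZMod 2) else 0)
  have h2 := MV_add_self (if x = (f, e) then (1 : ZMod 2) else 0)
  linear_combination h1 + h2

theorem MV_or (x z : Dart) : (if x = z ∨ x = star z then (1 : ZMod 2) else 0) =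
    (if x = z then 1 else 0) + (if x = star z then 1 else 0) := by
  by_cases h1 : x = z
  · have h2 : ¬ x = star z := fun h => star_ne z (h.symm.trans h1)
    rw [if_pos (Or.inl h1), if_pos h1, if_neg h2, add_zero]
  · by_cases h2 : x = star z
    · rw [if_pos (Or.inr h2), if_neg h1, if_pos h2, zero_add]
    · rw [if_neg (fun h => h.elim h1 h2), if_neg h1, if_neg h2, add_zero]

theorem MV_star_eq (x z : Dart) : (if star x = z then (1 : ZMod 2) else 0) =
    if x = star z then 1 else 0 := by
  have h : star x = z ↔ x = star z := by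
    constructor
    · rintro rfl
      rw [star_star]
    · rintro rfl
      rw [star_star]
  by_cases h1 : x = star z
  · rw [if_pos h1, if_pos (h.mpr h1)]
  · rw [if_neg h1, if_neg (fun h2 => h1 (h.mp h2))]

theorem MV_sum (f g : F) (d : Fin 3) : (if ((g, 0) : Dart) = (f, d) then (1 : ZMod 2) else 0) +
    (if ((g, 1) : Dart) = (f, d) then 1 else 0) + (if ((g, 2) : Dart) = (f, d) then 1 else 0) =
    if g = f then 1 else 0 := by
  by_cases h : g = f
  · subst h
    fin_cases d <;> simp
  · simp [h]

theorem MV_mapsTo (D : Dom) (f : F) (d e : Fin 3) (hf : D.FU f) :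
    Set.MapsTo (mv f d e) (D.Conf (f, d)) (D.Conf (f, e)) := by
  rintro ψ ⟨h1, h2, h3⟩
  refine ⟨?_, ?_, ?_⟩
  · intro g hg
    have a1 := MV_sum f g d
    have a2 := MV_sum f g e
    have a3 := h1 g hg
    have a4 := MV_add_self (if g = f then (1 : ZMod 2) else 0)
    simp only [mv]
    linear_combination a1 + a2 + a3 + a4
  · intro x
    have a1 := h2 x
    rw [MV_or] at a1 ⊢
    simp only [mv]
    rw [MV_star_eq, MV_star_eq, a1]
    have b1 := MV_add_self (if x = star (f, d) then (1 : ZMod 2) else 0)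
    have b2 := MV_add_self (if x = (f, e) then (1 : ZMod 2) else 0)
    linear_combination b1 - b2
  · intro x hx
    have e1 : ∀ c : Fin 3, x ≠ (f, c) := by
      rintro c rfl
      exact hx hf
    simp only [mv]
    rw [if_neg (e1 d), if_neg (e1 e), add_zero, add_zero]
    exact h3 x hx

theorem MV : MV_stmt := by
  intro D f d e hf
  refine ⟨MV_mapsTo D f d e hf, ?_, ?_⟩
  · intro ψ _ ψ' _ h
    have := congrArg (mv f e d) h
    rwa [MV_mv_mv, MV_mv_mv] at this
  · intro ψ hψ
    exact ⟨mv f e d ψ, MV_mapsTo D f e d hf hψ, MV_mv_mv f d e ψ⟩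

end Pool.Agent.helper82.SC
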